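import Pool.Agent.Helper89.NN.Unit
import Pool.Agent.Helper94.CPB.OneSection
import Pool.Agent.Helper29.CPB.Main

/-!
# A left inverse of `L` on the even cohomology of `X × X` and nilpotence give `B(X)`
-/

namespace Pool.Agent.Helper76.NN

open Pool.Agent.Helper29.CPB Pool.Agent.Helper29.CPB.OS Pool.Agent.Helper29.CPB.NL
  Pool.Agent.Helper89.NN TensorProduct

universe u v

variable {F : Type u} [Field F] [CharZero F]

/-- If `L ^ (1+k) a` is numerically trivial, then `a` is nilpotent on the degrees at most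
`dim X - (1+k)`; the input is a left inverse of `L` on the even cohomology of `X × X` in low
degrees, the nilpotence of the numerically trivial correspondences of `X × X`, and left inverses
of the `L ^ i`, `i ≤ k`, in these degrees. -/
theorem nil_of_even {X Z : Variety.{u, v} F} {τ : (X.H ⊗[F] X.H) ≃ₗ[F] Z.H}
    (hsq : IsSquare X Z τ) (k : ℕ) (γ : Module.End F Z.H) (hγ : γ ∈ Z.corr (-1))
    (hlow : ∀ j : ℤ, Even j → j + 1 ≤ Z.dim → ∀ z, Z.π j z = z → γ (Z.L z) = z)
    (hN : Nilpotence Z)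
    (hw : ∀ i ≤ k, ∃ w ∈ X.corr (-(i : ℤ)), ∀ j : ℤ, j ≤ X.dim - (1 + k : ℕ) → ∀ x,
      X.π j x = x → w ((X.L ^ i) x) = x)
    (a : Module.End F X.H) (ha : a ∈ X.corr 0)
    (hnum : ∀ θ ∈ X.corr (-((1 + k : ℕ) : ℤ)),
      LinearMap.trace F X.H (θ * X.L ^ (1 + k) * a * X.sgn) = 0) :
    ∃ M : ℕ, ∀ j : ℤ, j ≤ X.dim - (1 + k : ℕ) → ∀ x, X.π j x = x → (a ^ M) x = 0 := by
  have hn : NumTriv X ((1 + k : ℕ) : ℤ) (X.L ^ (1 + k) * a) := by
    intro v hv
    have := hnum v hv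
    rw [← mul_assoc, ← mul_assoc]
    exact this
  have hdim := hsq.dim
  -- the coefficients
  obtain ⟨β, ⟨i1, hi1, hβ1⟩, hβ⟩ := exists_coef k (2 * 1 - 1) 1
  obtain ⟨i0, hi0, hβ0, hmax⟩ : ∃ i0 ≤ k, β i0 ≠ 0 ∧ ∀ i, i0 < i → i ≤ k → β i = 0 := by
    classical
    let S := (Finset.range (k + 1)).filter (fun i => β i ≠ 0)
    have hS : S.Nonempty := ⟨i1, Finset.mem_filter.mpr ⟨Finset.mem_range.mpr (by omega), hβ1⟩⟩
    have hmem := S.max'_mem hS
    refine ⟨S.max' hS, ?_, (Finset.mem_filter.mp hmem).2, ?_⟩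
    · have := Finset.mem_range.mp (Finset.mem_filter.mp hmem).1
      omega
    · intro i hi hik
      by_contra hne
      have := S.le_max' i (Finset.mem_filter.mpr ⟨Finset.mem_range.mpr (by omega), hne⟩)
      omega
  have hknum := num_kap hsq le_rfl hβ ha hn
  have hK := kap_mem hsq k β ha
  obtain ⟨w1, hw1, hinv1⟩ := hw i0 hi0
  obtain ⟨w2, hw2, hinv2⟩ := hw (k - i0) (by omega)
  rw [show 2 * 1 - 1 = 1 from rfl, pow_one] at hknum
  set K : Module.End F Z.H := kap τ k β a with hKdef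
  set θ : Module.End F Z.H := τ.conj (TensorProduct.map w1 w2) with hθdef
  have hθ : θ ∈ Z.corr (-(k : ℤ)) := by
    have := hsq.prod _ _ w1 w2 hw1 hw2
    rwa [show (-(i0 : ℤ) + -((k - i0 : ℕ) : ℤ)) = -(k : ℤ) by omega] at this
  set T : Module.End F Z.H := θ * (γ * (Z.L * K)) with hT
  have htm : T ∈ Z.corr 0 := by
    rw [hT]
    refine Z.corr_mul' (r := -(k : ℤ)) (s := (k : ℤ)) (by ring) hθ ?_
    refine Z.corr_mul' (r := -1) (s := (1 : ℤ) + k) (by ring) hγ ?_
    exact Z.corr_mul' (by ring) Z.L_corr hK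
  have htn : NumTriv Z 0 T := by
    have h1 := (hknum.mul_left hγ).mul_left hθ
    rwa [show (-(k : ℤ) + (-1 + ((1 + k : ℕ) : ℤ))) = 0 by push_cast; ring] at h1
  have hTz : ∀ z, T z = θ (γ (Z.L (K z))) := by
    intro z
    rw [hT]; simp only [Module.End.mul_apply]
  obtain ⟨M, hM⟩ : IsNilpotent T := by
    apply hN T htm
    intro b hb
    have h1 := htn b (by rw [neg_zero]; exact hb)
    rw [← mul_assoc] at h1
    exact h1
  refine ⟨M, fun j hj x hx => ?_⟩
  -- the operator on `H ⊗ H`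
  set D : Module.End F (X.H ⊗[F] X.H) := τ.symm.conj T with hD
  have hDapp : ∀ (p q : ℤ) (x y : X.H), p + q = 2 * j → X.π p x = x → X.π q y = y →
      D (x ⊗ₜ y) = ∑ i ∈ Finset.range (k + 1), (β i : F) •
        ((w1 ((X.L ^ i) (a x))) ⊗ₜ[F] (w2 ((X.L ^ (k - i)) (a y)))) := by
    intro p q x y hpq hx hy
    have hz : Z.π (2 * j) (τ (x ⊗ₜ y)) = τ (x ⊗ₜ y) := by
      rw [← hpq]; exact hsq.grade p q x y hx hy
    have hKz : Z.π (2 * j + 2 * k) (K (τ (x ⊗ₜ[F] y))) = K (τ (x ⊗ₜ[F] y)) :=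
      Z.corr_homog hK rfl hz
    have e3 : γ (Z.L (K (τ (x ⊗ₜ[F] y)))) = K (τ (x ⊗ₜ[F] y)) :=
      hlow (2 * j + 2 * k) ⟨j + k, by ring⟩ (by push_cast at hj ⊢; omega) _ hKz
    have hc : ∀ (g : Module.End F (X.H ⊗[F] X.H)) (u : X.H ⊗[F] X.H),
        (τ.conj g) (τ u) = τ (g u) := by
      intro g u
      rw [LinearEquiv.conj_apply_apply, LinearEquiv.symm_apply_apply]
    have e4 : K (τ (x ⊗ₜ[F] y)) = τ (∑ i ∈ Finset.range (k + 1), (β i : F) •
        ((X.L ^ i) (a x) ⊗ₜ[F] (X.L ^ (k - i)) (a y))) := by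
      rw [hKdef, kap, LinearMap.sum_apply, map_sum]
      refine Finset.sum_congr rfl fun i _ => ?_
      rw [LinearMap.smul_apply, hc, map_smul, TensorProduct.map_tmul]
      rfl
    rw [hD, conj_apply', hTz, e3, e4, hθdef, hc, LinearEquiv.symm_apply_apply, map_sum]
    refine Finset.sum_congr rfl fun i _ => ?_
    rw [map_smul, TensorProduct.map_tmul]
  -- the terms
  have hterm : ∀ (p q : ℤ) (x y : X.H), p + q = 2 * j → X.π p x = x → X.π q y = y → ∀ i ≤ k,
      (p < j ∧ i ≤ i0) ∨ (p = j ∧ i < i0) →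
      (w1 ((X.L ^ i) (a x))) ⊗ₜ[F] (w2 ((X.L ^ (k - i)) (a y))) ∈ lowPart X j := by
    intro p q x y hpq hx hy i hik hcase
    have h1 : X.π (p + 2 * i - 2 * i0) (w1 ((X.L ^ i) (a x))) = w1 ((X.L ^ i) (a x)) := by
      have e1 : X.π p (a x) = a x := X.corr_homog ha (by ring) hx
      have e2 : X.π (p + 2 * i) ((X.L ^ i) (a x)) = (X.L ^ i) (a x) :=
        X.corr_homog (X.Lpow_corr i) rfl e1
      exact X.corr_homog hw1 (by ring) e2
    have h2 : X.π (q + 2 * ((k - i : ℕ) : ℤ) - 2 * ((k - i0 : ℕ) : ℤ))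
        (w2 ((X.L ^ (k - i)) (a y))) = w2 ((X.L ^ (k - i)) (a y)) := by
      have e1 : X.π q (a y) = a y := X.corr_homog ha (by ring) hy
      have e2 : X.π (q + 2 * ((k - i : ℕ) : ℤ)) ((X.L ^ (k - i)) (a y)) =
        (X.L ^ (k - i)) (a y) := X.corr_homog (X.Lpow_corr (k - i)) rfl e1
      exact X.corr_homog hw2 (by ring) e2
    apply mem_lowPart _ _ h1 h2
    · omega
    · omega
  have hDlow : ∀ z ∈ lowPart X j, D z ∈ lowPart X j := by
    intro z hz
    induction hz using Submodule.span_induction with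
    | mem z hz =>
      obtain ⟨p, q, x, y, hp, hpq, hx, hy, rfl⟩ := hz
      rw [hDapp p q x y hpq hx hy]
      apply Submodule.sum_mem
      intro i hi
      rw [Finset.mem_range] at hi
      by_cases hii : i ≤ i0
      · exact Submodule.smul_mem _ _ (hterm p q x y hpq hx hy i (by omega) (Or.inl ⟨hp, hii⟩))
      · rw [hmax i (by omega) (by omega), Rat.cast_zero, zero_smul]
        exact Submodule.zero_mem _
    | zero => rw [map_zero]; exact Submodule.zero_mem _
    | add x y _ _ hx hy => rw [map_add]; exact Submodule.add_mem _ hx hy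
    | smul b x _ hx => rw [map_smul]; exact Submodule.smul_mem _ _ hx
  have hDdiag : ∀ x, X.π j x = x → D (x ⊗ₜ x) - (β i0 : F) • (a x ⊗ₜ[F] a x) ∈ lowPart X j := by
    intro x hx
    have hax : X.π j (a x) = a x := X.corr_homog ha (by ring) hx
    rw [hDapp j j x x (by ring) hx hx]
    have e1 : ((β i0 : F) • (a x ⊗ₜ[F] a x)) = (β i0 : F) •
        ((w1 ((X.L ^ i0) (a x))) ⊗ₜ[F] (w2 ((X.L ^ (k - i0)) (a x)))) := by
      rw [hinv1 j hj (a x) hax, hinv2 j hj (a x) hax]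
    rw [e1, ← Finset.add_sum_erase _ _ (Finset.mem_range.mpr (show i0 < k + 1 by omega)),
      add_sub_cancel_left]
    apply Submodule.sum_mem
    intro i hi
    rw [Finset.mem_erase, Finset.mem_range] at hi
    rcases Nat.lt_or_ge i i0 with hii | hii
    · exact Submodule.smul_mem _ _ (hterm j j x x (by ring) hx hx i (by omega)
        (Or.inr ⟨rfl, hii⟩))
    · rw [hmax i (by omega) (by omega), Rat.cast_zero, zero_smul]
      exact Submodule.zero_mem _
  have hpow : ∀ m : ℕ, (D ^ m) (x ⊗ₜ x) - ((β i0 : F) ^ m) • ((a ^ m) x ⊗ₜ[F] (a ^ m) x) ∈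
      lowPart X j := by
    intro m
    induction m with
    | zero => simp
    | succ m ih =>
      have hamx : X.π j ((a ^ m) x) = (a ^ m) x :=
        X.corr_homog (X.corr_pow_zero ha m) (by ring) hx
      have h1 := hDlow _ ih
      rw [map_sub, map_smul] at h1
      have h2 := Submodule.smul_mem _ ((β i0 : F) ^ m) (hDdiag _ hamx)
      rw [smul_sub, smul_smul, ← pow_succ] at h2
      have h3 := Submodule.add_mem _ h1 h2
      rw [sub_add_sub_cancel] at h3
      rw [pow_succ' D, Module.End.mul_apply, pow_succ' a, Module.End.mul_apply]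
      exact h3
  have h1 := hpow M
  have h2 : D ^ M = 0 := by
    rw [hD, ← conj_pow', hM, map_zero]
  rw [h2, LinearMap.zero_apply, zero_sub] at h1
  have h3 := map_lowPart h1
  have haMx : X.π j ((a ^ M) x) = (a ^ M) x :=
    X.corr_homog (X.corr_pow_zero ha M) (by ring) hx
  rw [map_neg, neg_eq_zero, map_smul, TensorProduct.map_tmul, haMx, smul_eq_zero] at h3
  rcases h3 with h3 | h3
  · exact absurd (eq_zero_of_pow_eq_zero h3) (by exact_mod_cast hβ0)
  · exact tmul_self_eq_zero h3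

/-- Algebraic left inverses of all `L ^ (1 + k)`. -/
theorem inverses_of_even {X Z : Variety.{u, v} F} {τ : (X.H ⊗[F] X.H) ≃ₗ[F] Z.H}
    (hsq : IsSquare X Z τ) (γ : Module.End F Z.H) (hγ : γ ∈ Z.corr (-1))
    (h : ∀ j : ℤ, Even j → j + 1 ≤ Z.dim → ∀ z, Z.π j z = z → γ (Z.L z) = z)
    (hN : Nilpotence Z) (k : ℕ) :
    ∃ w ∈ X.corr (-((1 + k : ℕ) : ℤ)), ∀ j : ℤ, j ≤ X.dim - (1 + k : ℕ) →
      ∀ x, X.π j x = x → w ((X.L ^ (1 + k)) x) = x := by
  induction k using Nat.strong_induction_on with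
  | _ k ih =>
    apply leftInverse_of_nil
    intro a ha hnum
    apply nil_of_even hsq k γ hγ h hN _ a ha hnum
    intro i hi
    rcases Nat.eq_zero_or_pos i with rfl | hipos
    · refine ⟨1, by simpa using X.corr_one, ?_⟩
      intro j _ x _
      rw [pow_zero, Module.End.one_apply, Module.End.one_apply]
    · obtain ⟨w, hw, hinv⟩ := ih (i - 1) (by omega)
      rw [show 1 + (i - 1) = i by omega] at hw hinv
      exact ⟨w, hw, fun j hj x hx => hinv j (by push_cast at hj ⊢; omega) x hx⟩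

theorem lefschetz_of_even {X Z : Variety.{u, v} F} {μ : X.H → X.H → Z.H}
    (hsp : SelfProduct X Z μ) (_hX : 1 ≤ X.dim) (γ : Module.End F Z.H) (hγ : γ ∈ Z.corr (-1))
    (h : ∀ j : ℤ, Even j → j + 1 ≤ Z.dim → ∀ z, Z.π j z = z → γ (Z.L z) = z)
    (hN : Nilpotence Z) : X.Lefschetz := by
  obtain ⟨τ, hsq⟩ := hsp.isSquare
  apply lefschetz_of_inverse
  intro c hc _
  obtain ⟨w, hw, hinv⟩ := inverses_of_even hsq γ hγ h hN (c - 1)
  rw [show 1 + (c - 1) = c by omega] at hw hinv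
  exact ⟨w, hw, hinv⟩

end Pool.Agent.Helper76.NN
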