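import Pool.Agent.Helper89.NN.Alg

/-!
# Symmetrisation of forms and the symmetrised power of the form `B`
-/

namespace Pool.Agent.Helper76.NN

open Pool.Agent.Helper89.NN

universe u v w

variable {F : Type u} [Field F] {U : Type v} [AddCommGroup U] [Module F U] {ι : Type w} [Fintype ι]
  {D : SS F U ι}

/-! ## Signed sums over the letters of a word -/

/-- signed sum over the letters of a word -/
def csum {α : Type*} (par : α → Bool) : (α → List α → F) → List α → F
  | _, [] => 0
  | g, x :: l => g x l + csum par (fun y l' => sg F (par x) (par y) * g y (x :: l')) l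

section csum

variable {α : Type*} {par : α → Bool}

lemma csum_cons (g : α → List α → F) (x : α) (l : List α) :
    csum par g (x :: l) =
      g x l + csum par (fun y l' => sg F (par x) (par y) * g y (x :: l')) l := rfl

lemma csum_congr {g g' : α → List α → F} {l : List α}
    (h : ∀ y l', l'.length + 1 = l.length → g y l' = g' y l') :
    csum par g l = csum par g' l := by
  induction l generalizing g g' with
  | nil => rfl
  | cons x l ih =>
    rw [csum_cons, csum_cons, h x l rfl, ih]
    intro y l' hl
    rw [h y (x :: l') (by simp; omega)]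

lemma csum_mul (c : F) (g : α → List α → F) (l : List α) :
    csum par (fun y l' => c * g y l') l = c * csum par g l := by
  induction l generalizing g with
  | nil => simp [csum]
  | cons x l ih =>
    rw [csum_cons, csum_cons, mul_add, ← ih]
    congr 1
    exact csum_congr fun y l' _ => by ring

lemma csum_add (g g' : α → List α → F) (l : List α) :
    csum par (fun y l' => g y l' + g' y l') l = csum par g l + csum par g' l := by
  induction l generalizing g g' with
  | nil => simp [csum]
  | cons x l ih =>
    rw [csum_cons, csum_cons, csum_cons]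
    have : csum par (fun y l' => sg F (par x) (par y) * (g y (x :: l') + g' y (x :: l'))) l =
        csum par (fun y l' => sg F (par x) (par y) * g y (x :: l')) l +
        csum par (fun y l' => sg F (par x) (par y) * g' y (x :: l')) l := by
      rw [← ih]
      exact csum_congr fun y l' _ => by ring
    rw [this]
    ring

lemma csum_zero (l : List α) : csum par (fun _ _ => (0 : F)) l = 0 := by
  have := csum_mul (par := par) (0 : F) (fun _ _ => (0 : F)) l
  simpa using this

lemma csum_map {β : Type*} (φ : β → α) (g : α → List α → F) (l : List β) :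
    csum par g (l.map φ) = csum (fun b => par (φ b)) (fun y l' => g (φ y) (l'.map φ)) l := by
  induction l generalizing g with
  | nil => rfl
  | cons x l ih =>
    rw [List.map_cons, csum_cons, csum_cons, ih]
    rfl

lemma csum_swap (n : ℕ) {g : α → List α → F}
    (hg : ∀ y a u v b, a.length + b.length + 2 = n →
      g y (a ++ u :: v :: b) = sg F (par u) (par v) * g y (a ++ v :: u :: b))
    (a : List α) (u v : α) (b : List α) (h : a.length + b.length + 2 = n + 1) :
    csum par g (a ++ u :: v :: b) = sg F (par u) (par v) * csum par g (a ++ v :: u :: b) := by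
  induction a generalizing g n with
  | nil =>
    simp only [List.nil_append, csum_cons]
    have h1 : csum par (fun y l' => sg F (par v) (par y) *
          (sg F (par u) (par y) * g y (u :: v :: l'))) b =
        sg F (par u) (par v) * csum par (fun y l' => sg F (par u) (par y) *
          (sg F (par v) (par y) * g y (v :: u :: l'))) b := by
      rw [← csum_mul]
      refine csum_congr fun y l' hl => ?_
      have := hg y [] u v l' (by simp at h ⊢; omega)
      simp only [List.nil_append] at this
      rw [this]
      ring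
    rw [h1, sg_comm (par v) (par u)]
    have h2 := sg_mul_sg (F := F) (par u) (par v)
    linear_combination (- g u (v :: b)) * h2
  | cons x a ih =>
    obtain ⟨n, rfl⟩ : ∃ n', n = n' + 1 := ⟨n - 1, by simp at h; omega⟩
    rw [List.cons_append, List.cons_append, csum_cons, csum_cons,
      hg x a u v b (by simp at h; omega)]
    rw [ih n (g := fun y l' => sg F (par x) (par y) * g y (x :: l'))]
    · ring
    · intro y a' u' v' b' hn
      have := hg y (x :: a') u' v' b' (by simp; omega)
      simp only [List.cons_append] at this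
      rw [this]
      ring
    · simp at h ⊢; omega

lemma csum_replicate {z : α} (hz : par z = false) (a : ℕ) (g : α → List α → F) (l : List α) :
    csum par g (List.replicate a z ++ l) =
      a * g z (List.replicate (a - 1) z ++ l) +
        csum par (fun y l' => g y (List.replicate a z ++ l')) l := by
  induction a generalizing g with
  | zero => simp
  | succ a ih =>
    rw [List.replicate_succ, List.cons_append, csum_cons, ih]
    simp only [hz, sg_false_left, one_mul, List.cons_append, Nat.add_sub_cancel]
    rcases a with _ | a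
    · simp
    · simp only [Nat.add_sub_cancel, ← List.cons_append, ← List.replicate_succ]
      push_cast
      ring

lemma csum_prod {β : α → F} (hβ : ∀ y, par y = true → β y = 0) (l : List α) :
    csum par (fun y l' => β y * (l'.map β).prod) l = l.length * (l.map β).prod := by
  induction l with
  | nil => simp [csum]
  | cons x l ih =>
    rw [csum_cons]
    have : csum par (fun y l' => sg F (par x) (par y) * (β y * ((x :: l').map β).prod)) l =
        β x * csum par (fun y l' => β y * (l'.map β).prod) l := by
      rw [← csum_mul]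
      refine csum_congr fun y l' _ => ?_
      rcases hy : par y with _ | _
      · simp; ring
      · rw [hβ y hy]; ring
    rw [this, ih]
    simp
    ring

end csum

/-! ## The partial symmetrisation -/

/-- sum over all places for the slot `j`, among the slots `j, ..., j + m` -/
def cy (D : SS F U ι) : ℕ → ℕ → (List U → F) → List U → F
  | 0, _, t => t
  | m + 1, j, t => t + cy D m (j + 1) (sw D j t)

lemma cy_alg {alg : ℕ → (List U → F) → Prop} (hA : AlgForms D alg) {n m j : ℕ} {t : List U → F}
    (h : alg n t) (hj : j + m + 1 ≤ n) : alg n (cy D m j t) := by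
  induction m generalizing j t with
  | zero => exact h
  | succ m ih =>
    exact hA.add n _ _ h (ih (hA.swap n j t h (by omega)) (by omega))

lemma cy_apply [CharZero F] {alg : ℕ → (List U → F) → Prop} (hA : AlgForms D alg) {α : Type*}
    {vec : α → U} {par : α → Bool} (hp : ∀ a, D.Par (par a) (vec a)) {n m j : ℕ}
    {t : List U → F} (ht : alg n t) (l₀ l : List α) (hl₀ : l₀.length = j)
    (hl : l.length = m + 1) (hn : j + m + 1 = n) :
    cy D m j t ((l₀ ++ l).map vec) =
      csum par (fun y l' => t ((l₀ ++ y :: l').map vec)) l := by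
  induction m generalizing j t l₀ l with
  | zero =>
    obtain ⟨x, rfl⟩ := List.length_eq_one_iff.mp hl
    simp [cy, csum]
  | succ m ih =>
    rcases l with _ | ⟨x, l⟩
    · simp at hl
    · have h1 := ih (j := j + 1) (hA.swap n j t ht (by omega)) (l₀ ++ [x]) l
        (by simp [hl₀]) (by simpa using hl) (by omega)
      rw [csum_cons]
      show t _ + cy D m (j + 1) (sw D j t) _ = _
      congr 1
      rw [show l₀ ++ x :: l = l₀ ++ [x] ++ l by simp, h1]
      refine csum_congr fun y l' hl' => ?_
      have h2 := sw_apply (hA.form n t ht) (l₀.map vec) (l'.map vec) (vec x) (vec y)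
        (i := j) (by simpa using hl₀) (by simp at hl ⊢; omega) (hp x) (hp y)
      simpa using h2

/-- symmetry in the slots from `j` on, on the words in the basis -/
def SymW (D : SS F U ι) (j n : ℕ) (t : List U → F) : Prop :=
  ∀ (a : List ι) (u v : ι) (b : List ι), j ≤ a.length → a.length + b.length + 2 = n →
    t ((a ++ u :: v :: b).map D.e) = sg F (D.p u) (D.p v) * t ((a ++ v :: u :: b).map D.e)

lemma cy_symW [CharZero F] {alg : ℕ → (List U → F) → Prop} (hA : AlgForms D alg) {n m j : ℕ}
    {t : List U → F} (ht : alg n t) (hs : SymW D (j + 1) n t) (hn : j + m + 1 = n) :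
    SymW D j n (cy D m j t) := by
  intro a u v b ha hl
  have h0 : (a.take j).length = j := by simp; omega
  have h1 : (a.drop j).length + b.length + 2 = m + 1 := by simp; omega
  have e1 : ∀ u v : ι, a ++ u :: v :: b = a.take j ++ (a.drop j ++ u :: v :: b) := by
    intro u v
    rw [← List.append_assoc, List.take_append_drop]
  rw [e1 u v, e1 v u, cy_apply hA D.par_e ht (a.take j) _ h0 (by simp at h1 ⊢; omega) hn,
    cy_apply hA D.par_e ht (a.take j) _ h0 (by simp at h1 ⊢; omega) hn]
  refine csum_swap m ?_ (a.drop j) u v b (by omega)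
  intro y a' u' v' b' hab
  have := hs (a.take j ++ y :: a') u' v' b' (by simp; omega) (by simp; omega)
  simpa using this

lemma isSym_of_symW [CharZero F] {alg : ℕ → (List U → F) → Prop} (hA : AlgForms D alg) {n : ℕ}
    {t : List U → F} (ht : alg n t) (hs : SymW D 0 n t) : IsSym D n t := by
  intro l₁ l₂ x y a b hl hx hy
  have key : ∀ l : List U, l.length = n → sw D l₁.length t l = t l := by
    apply (hA.form n _ (hA.swap n l₁.length t ht (by omega))).ext_e (hA.form n t ht)
    intro l hl'
    have h1 : (l.drop l₁.length).length = l₂.length + 2 := by simp; omega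
    obtain ⟨u, v, c, hc⟩ : ∃ u v c, l.drop l₁.length = u :: v :: c := by
      rcases h2 : l.drop l₁.length with _ | ⟨u, _ | ⟨v, c⟩⟩
      · rw [h2] at h1; simp at h1
      · rw [h2] at h1; simp at h1
      · exact ⟨u, v, c, rfl⟩
    have h3 : l = l.take l₁.length ++ u :: v :: c := by
      rw [← hc, List.take_append_drop]
    have h4 : (l.take l₁.length).length = l₁.length := by simp; omega
    rw [hc] at h1
    simp only [List.length_cons] at h1
    rw [h3, List.map_append, List.map_cons, List.map_cons,
      sw_apply (hA.form n t ht) _ _ _ _ (by simpa using h4) (by simp; omega) (D.par_e u)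
        (D.par_e v)]
    have h5 := hs (l.take l₁.length) u v c (by omega) (by omega)
    rw [List.map_append, List.map_cons, List.map_cons, List.map_append, List.map_cons,
      List.map_cons] at h5
    rw [h5]
  rw [← key _ (by simp; omega), sw_apply (hA.form n t ht) l₁ l₂ x y rfl (by omega) hx hy]

/-! ## Contractions with symmetric forms -/

lemma cn_append_right (m : ℕ) (P Q : List U → F) (l₁ l₂ l₃ : List U) :
    cn D m P Q l₁ (l₂ ++ l₃) = cn D m P (fun l => Q (l ++ l₃)) l₁ l₂ := by
  induction m generalizing l₁ l₂ with
  | zero => rfl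
  | succ m ih => exact Finset.sum_congr rfl fun i _ => by rw [← List.cons_append, ih]

lemma cn_zero_right (m : ℕ) (P : List U → F) (l₁ l₂ : List U) :
    cn D m P (fun _ => 0) l₁ l₂ = 0 := by
  induction m generalizing l₁ l₂ with
  | zero => exact mul_zero _
  | succ m ih => exact Finset.sum_eq_zero fun i _ => ih _ _

lemma cn_finsum_right {κ : Type*} (s : Finset κ) (m : ℕ) (P : List U → F) (Q : κ → List U → F)
    (l₁ l₂ : List U) :
    cn D m P (fun l => ∑ k ∈ s, Q k l) l₁ l₂ = ∑ k ∈ s, cn D m P (Q k) l₁ l₂ := by
  classical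
  induction s using Finset.induction_on with
  | empty => simpa using cn_zero_right m P l₁ l₂
  | insert a s ha ih =>
    rw [Finset.sum_insert ha, ← ih, ← cn_add_right]
    congr 1
    funext l
    rw [Finset.sum_insert ha]

lemma pair_sw_right [CharZero F] {n j : ℕ} {T Q : List U → F} (hT : IsSym D n T)
    (hQ : IsForm D n Q) (m : ℕ) (hm : j + 2 ≤ m) (l₁ l₂ : List U) (h₁ : l₁.length + m = n)
    (h₂ : l₂.length + m = n) : cn D m T (sw D j Q) l₁ l₂ = cn D m T Q l₁ l₂ := by
  induction m, hm using Nat.le_induction generalizing l₁ l₂ with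
  | base =>
    show ∑ a, ∑ b, cn D j T (sw D j Q) (l₁ ++ [D.e a] ++ [D.e b]) (D.f b :: D.f a :: l₂) =
      ∑ a, ∑ b, cn D j T Q (l₁ ++ [D.e a] ++ [D.e b]) (D.f b :: D.f a :: l₂)
    rw [Finset.sum_comm]
    refine Finset.sum_congr rfl fun b _ => Finset.sum_congr rfl fun a _ => ?_
    have h1 : cn D j T (sw D j Q) (l₁ ++ [D.e a] ++ [D.e b]) (D.f b :: D.f a :: l₂) =
        sg F (D.p b) (D.p a) *
          cn D j T Q (l₁ ++ [D.e a] ++ [D.e b]) (D.f a :: D.f b :: l₂) := by
      have e1 := cn_append_right j T (sw D j Q) (l₁ ++ [D.e a] ++ [D.e b]) []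
        (D.f b :: D.f a :: l₂) (D := D)
      have e2 := cn_append_right j T Q (l₁ ++ [D.e a] ++ [D.e b]) []
        (D.f a :: D.f b :: l₂) (D := D)
      simp only [List.nil_append] at e1 e2
      rw [e1, e2, ← cn_smul_right]
      refine cn_congr (n₁ := n) (n₂ := j) _ _ (by simp; omega) (by simp) (fun _ _ => rfl)
        fun l hl => ?_
      exact sw_apply hQ l l₂ (D.f b) (D.f a) hl (by omega) (D.par_f b) (D.par_f a)
    have h2 := cn_swap_left hT j Q l₁ [] (D.f a :: D.f b :: l₂) (D.e a) (D.e b)
      (by simp; omega) (D.par_e a) (D.par_e b)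
    have e3 : ∀ x y : U, l₁ ++ [x] ++ [y] = l₁ ++ x :: y :: [] := by intro x y; simp
    rw [h1, e3, h2, e3, ← mul_assoc, sg_comm (D.p b) (D.p a), sg_mul_sg, one_mul]
  | succ m hm ih =>
    exact Finset.sum_congr rfl fun i _ => ih _ _ (by simp; omega) (by simp; omega)

lemma pair_sw_left [CharZero F] {n j : ℕ} {T Q : List U → F} (hT : IsForm D n T)
    (hQ : IsSym D n Q) (m d : ℕ) (l₁ l₂ : List U) (hd : l₁.length + d = j)
    (h₁ : l₁.length + (m + 2 + d) = n) (h₂ : l₂.length + (m + 2 + d) = n) :
    cn D (m + 2 + d) (sw D j T) Q l₁ l₂ = cn D (m + 2 + d) T Q l₁ l₂ := by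
  induction d generalizing l₁ l₂ with
  | zero =>
    show ∑ a, ∑ b, cn D m (sw D j T) Q (l₁ ++ [D.e a] ++ [D.e b]) (D.f b :: D.f a :: l₂) =
      ∑ a, ∑ b, cn D m T Q (l₁ ++ [D.e a] ++ [D.e b]) (D.f b :: D.f a :: l₂)
    rw [Finset.sum_comm]
    refine Finset.sum_congr rfl fun b _ => Finset.sum_congr rfl fun a _ => ?_
    have e3 : ∀ x y : U, l₁ ++ [x] ++ [y] = l₁ ++ [x, y] ++ [] := by intro x y; simp
    have h1 : cn D m (sw D j T) Q (l₁ ++ [D.e a] ++ [D.e b]) (D.f b :: D.f a :: l₂) =
        sg F (D.p a) (D.p b) *
          cn D m T Q (l₁ ++ [D.e b] ++ [D.e a]) (D.f b :: D.f a :: l₂) := by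
      rw [e3, e3, cn_append, cn_append, ← cn_smul_left]
      refine cn_congr (n₁ := m) (n₂ := n) _ _ (by simp) (by simp; omega) (fun l hl => ?_)
        (fun _ _ => rfl)
      have := sw_apply hT l₁ l (D.e a) (D.e b) (i := j) (by omega) (by omega) (D.par_e a)
        (D.par_e b)
      simpa using this
    have h2 := cn_swap_right hQ m T (l₁ ++ [D.e b] ++ [D.e a]) [] l₂ (D.f b) (D.f a)
      (by simp; omega) (D.par_f b) (D.par_f a)
    simp only [List.nil_append] at h2
    rw [h1, h2, ← mul_assoc, sg_comm (D.p b) (D.p a), sg_mul_sg, one_mul]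
  | succ d ih =>
    exact Finset.sum_congr rfl fun i _ => ih _ _ (by simp; omega) (by simp; omega)
      (by simp; omega)

lemma pair_cy_right [CharZero F] {alg : ℕ → (List U → F) → Prop} (hA : AlgForms D alg)
    {n m j : ℕ} {T Q : List U → F} (hT : IsSym D n T) (hQ : alg n Q) (hn : j + m + 1 ≤ n) :
    cn D n T (cy D m j Q) [] [] = (m + 1) * cn D n T Q [] [] := by
  induction m generalizing j Q with
  | zero => simp [cy]
  | succ m ih =>
    show cn D n T (fun l => Q l + cy D m (j + 1) (sw D j Q) l) [] [] = _
    rw [cn_add_right, ih (hA.swap n j Q hQ (by omega)) (by omega),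
      pair_sw_right hT (hA.form n Q hQ) n (by omega) [] [] (by simp) (by simp)]
    push_cast
    ring

lemma pair_cy_left [CharZero F] {alg : ℕ → (List U → F) → Prop} (hA : AlgForms D alg)
    {n m j : ℕ} {T Q : List U → F} (hT : alg n T) (hQ : IsSym D n Q) (hn : j + m + 1 ≤ n) :
    cn D n (cy D m j T) Q [] [] = (m + 1) * cn D n T Q [] [] := by
  induction m generalizing j T with
  | zero => simp [cy]
  | succ m ih =>
    show cn D n (fun l => T l + cy D m (j + 1) (sw D j T) l) Q [] [] = _
    have h1 := pair_sw_left (hA.form n T hT) hQ (n - 2 - j) j (j := j) [] [] (by simp)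
      (by simp; omega) (by simp; omega)
    rw [show n - 2 - j + 2 + j = n by omega] at h1
    rw [cn_add_left, ih (hA.swap n j T hT (by omega)) (by omega), h1]
    push_cast
    ring

/-! ## Contraction of two slots -/

lemma ctr_isSym {n : ℕ} {Q : List U → F} (hQ : IsSym D (n + 2) Q) : IsSym D n (ctr D n Q) := by
  intro l₁ l₂ x y a b hl hx hy
  unfold ctr
  rw [Finset.mul_sum]
  refine Finset.sum_congr rfl fun j _ => ?_
  have e1 : ∀ x y : U, (l₁ ++ x :: y :: l₂).take n ++ D.e j :: D.f j ::
      (l₁ ++ x :: y :: l₂).drop n = l₁ ++ x :: y :: (l₂ ++ [D.e j, D.f j]) := by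
    intro x y
    rw [List.take_of_length_le (by simp; omega), List.drop_of_length_le (by simp; omega)]
    simp
  rw [e1, e1]
  exact hQ l₁ _ x y a b (by simp; omega) hx hy

lemma ctr_eq {alg : ℕ → (List U → F) → Prop} (hA : AlgForms D alg) {n : ℕ}
    {Q : List U → F} (hQa : alg (n + 2) Q) (hQ : IsSym D (n + 2) Q) (i : ℕ) (hi : i ≤ n) :
    ∀ l : List U, l.length = n → ctr D i Q l = ctr D 0 Q l := by
  induction i with
  | zero => intro l _; rfl
  | succ i ih =>
    intro l hl
    rw [← ih (by omega) l hl]
    revert l
    apply (hA.form n _ (hA.contr n (i + 1) Q hQa hi)).ext_e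
      (hA.form n _ (hA.contr n i Q hQa (by omega)))
    intro l hl
    have h1 : (l.drop i).length = (n - i - 1) + 1 := by simp; omega
    obtain ⟨x, c, hc⟩ : ∃ x c, l.drop i = x :: c := by
      rcases h2 : l.drop i with _ | ⟨x, c⟩
      · rw [h2] at h1; simp at h1
      · exact ⟨x, c, rfl⟩
    have h3 : l = l.take i ++ x :: c := by rw [← hc, List.take_append_drop]
    have h4 : (l.take i).length = i := by simp; omega
    have h6 : c.length + 1 = n - i - 1 + 1 := by rw [hc] at h1; simpa using h1
    generalize l.take i = a at h3 h4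
    subst h3
    unfold ctr
    refine Finset.sum_congr rfl fun j _ => ?_
    have e1 : ((a ++ x :: c).map D.e).take (i + 1) = a.map D.e ++ [D.e x] := by
      rw [show a ++ x :: c = (a ++ [x]) ++ c by simp, List.map_append,
        List.take_left' (by simp [h4])]
      simp
    have e2 : ((a ++ x :: c).map D.e).drop (i + 1) = c.map D.e := by
      rw [show a ++ x :: c = (a ++ [x]) ++ c by simp, List.map_append,
        List.drop_left' (by simp [h4])]
    have e3 : ((a ++ x :: c).map D.e).take i = a.map D.e := by
      rw [List.map_append, List.take_left' (by simp [h4])]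
    have e4 : ((a ++ x :: c).map D.e).drop i = D.e x :: c.map D.e := by
      rw [List.map_append, List.drop_left' (by simp [h4]), List.map_cons]
    rw [e1, e2, e3, e4]
    have h7 := hQ (a.map D.e) (D.f j :: c.map D.e) (D.e x) (D.e j) (D.p x) (D.p j)
      (by simp; omega) (D.par_e x) (D.par_e j)
    have h8 := hQ (a.map D.e ++ [D.e j]) (c.map D.e) (D.e x) (D.f j) (D.p x) (D.p j)
      (by simp; omega) (D.par_e x) (D.par_f j)
    simp only [List.append_assoc, List.singleton_append] at h8
    rw [show a.map D.e ++ [D.e x] ++ D.e j :: D.f j :: c.map D.e =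
      a.map D.e ++ D.e x :: D.e j :: (D.f j :: c.map D.e) by simp, h7, h8, ← mul_assoc,
      sg_mul_sg, one_mul]

lemma iter_congr (r : ℕ) {P P' : List U → F} (h : ∀ l : List U, l.length = 2 * r → P l = P' l) :
    (ctr D 0)^[r] P [] = (ctr D 0)^[r] P' [] := by
  induction r generalizing P P' with
  | zero => exact h [] rfl
  | succ r ih =>
    rw [Function.iterate_succ_apply, Function.iterate_succ_apply]
    refine ih fun l hl => ?_
    unfold ctr
    exact Finset.sum_congr rfl fun j _ => h _ (by simp; omega)

lemma pair_B {n : ℕ} {T Q : List U → F} (hQ : IsForm D (n + 2) Q) :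
    cn D (n + 2) (fun l => frm D (l.take 2) * T (l.drop 2)) Q [] [] =
      cn D n T (ctr D n Q) [] [] := by
  have h1 : ∀ a b, cn D n (fun l => frm D (l.take 2) * T (l.drop 2)) Q
      ([] ++ [D.e a] ++ [D.e b]) (D.f b :: D.f a :: []) =
      cn D n T (fun l => D.B (D.e a) (D.e b) * Q (l ++ [D.f b, D.f a])) [] [] := by
    intro a b
    have e1 := cn_append_right n T Q [] [] [D.f b, D.f a] (D := D)
    rw [List.nil_append] at e1
    rw [cn_smul_right, ← e1, ← cn_smul_left]
    have e2 := cn_append n (fun l => frm D (l.take 2) * T (l.drop 2)) Q [D.e a, D.e b] []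
      [D.f b, D.f a] (D := D)
    simp only [List.append_nil] at e2
    simp only [List.nil_append, List.singleton_append]
    rw [e2]
    refine cn_congr (n₁ := n) (n₂ := n + 2) _ _ (by simp) (by simp; omega) (fun l _ => ?_)
      (fun _ _ => rfl)
    simp [frm]
  show ∑ a, ∑ b, cn D n (fun l => frm D (l.take 2) * T (l.drop 2)) Q
      ([] ++ [D.e a] ++ [D.e b]) (D.f b :: D.f a :: []) = _
  simp only [h1]
  have h2 : ∀ a, ∑ b, cn D n T (fun l => D.B (D.e a) (D.e b) * Q (l ++ [D.f b, D.f a])) [] [] =
      cn D n T (fun l => ∑ b, D.B (D.e a) (D.e b) * Q (l ++ [D.f b, D.f a])) [] [] := by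
    intro a
    rw [cn_finsum_right]
  simp only [h2]
  rw [← cn_finsum_right]
  refine cn_congr (n₁ := n) (n₂ := n) _ _ (by simp) (by simp) (fun _ _ => rfl) fun l hl => ?_
  rw [Finset.sum_comm]
  have h3 : ∀ b, ∑ a, D.B (D.e a) (D.e b) * Q (l ++ [D.f b, D.f a]) =
      sp F (D.p b) * Q (l ++ [D.f b, D.e b]) := by
    intro b
    have e1 := hQ.sum (l ++ [D.f b]) [] (by simp; omega) Finset.univ
      (fun a => D.B (D.e a) (D.e b)) D.f
    rw [D.zag', D.ε_e] at e1
    have e2 := hQ.smul (l ++ [D.f b]) [] (sp F (D.p b)) (D.e b) (by simp; omega)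
    rw [e2] at e1
    simp only [List.append_assoc, List.singleton_append] at e1
    exact e1.symm
  simp only [h3]
  have h4 := D.cup_symm (hQ.lin₂ l [] [] (by simp; omega))
  simp only [hQ.lin₂_apply, List.nil_append] at h4
  unfold ctr
  rw [List.take_of_length_le (by omega), List.drop_of_length_le (by omega)]
  exact h4.symm

/-! ## The symmetrisation -/

/-- symmetrisation of the last `r` slots -/
def sy (D : SS F U ι) (n : ℕ) (Q : List U → F) : ℕ → List U → F
  | 0 => Q
  | r + 1 => cy D r (n - (r + 1)) (sy D n Q r)

lemma sy_spec [CharZero F] {alg : ℕ → (List U → F) → Prop} (hA : AlgForms D alg) {n : ℕ}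
    {Q : List U → F} (hQ : alg n Q) (r : ℕ) (hr : r ≤ n) :
    alg n (sy D n Q r) ∧ SymW D (n - r) n (sy D n Q r) ∧
      ∀ T, IsSym D n T → cn D n T (sy D n Q r) [] [] = (r.factorial : F) *
        cn D n T Q [] [] := by
  induction r with
  | zero =>
    refine ⟨hQ, fun a u v b ha hl => by omega, fun T _ => by simp [sy]⟩
  | succ r ih =>
    obtain ⟨h1, h2, h3⟩ := ih (by omega)
    refine ⟨cy_alg hA h1 (by omega), ?_, fun T hT => ?_⟩
    · refine cy_symW hA h1 ?_ (by omega)
      rwa [show n - (r + 1) + 1 = n - r by omega]
    · show cn D n T (cy D r (n - (r + 1)) (sy D n Q r)) [] [] = _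
      rw [pair_cy_right hA hT h1 (by omega), h3 T hT, Nat.factorial_succ]
      push_cast
      ring

/-! ## The symmetrised power of `B` -/

/-- the symmetrised power of the form -/
def TT (D : SS F U ι) : ℕ → List U → F
  | 0 => fun _ => 1
  | k + 1 => cy D (2 * k + 1) 0 (cy D (2 * k) 1 fun l => frm D (l.take 2) * TT D k (l.drop 2))

section TT

variable [CharZero F] {alg : ℕ → (List U → F) → Prop} (hA : AlgForms D alg)
include hA

lemma TT_alg (k : ℕ) : alg (2 * k) (TT D k) ∧
    alg (2 * (k + 1)) (fun l => frm D (l.take 2) * TT D k (l.drop 2)) := by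
  induction k with
  | zero =>
    refine ⟨hA.one, ?_⟩
    have := hA.mul hA.diag hA.one
    exact this
  | succ k ih =>
    have h : alg (2 * (k + 1)) (TT D (k + 1)) :=
      cy_alg hA (cy_alg hA ih.2 (by omega)) (by omega)
    refine ⟨h, ?_⟩
    have := hA.mul hA.diag h
    rwa [show 2 + 2 * (k + 1) = 2 * (k + 1 + 1) by ring] at this

lemma TT_symW (k : ℕ) : SymW D 0 (2 * k) (TT D k) := by
  induction k with
  | zero => intro a u v b _ hl; omega
  | succ k ih =>
    have h0 : SymW D 2 (2 * (k + 1)) (fun l => frm D (l.take 2) * TT D k (l.drop 2)) := by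
      intro a u v b ha hl
      rcases a with _ | ⟨x, _ | ⟨y, a⟩⟩
      · simp at ha
      · simp at ha
      · have := ih a u v b (by omega) (by simp at hl; omega)
        show frm D [D.e x, D.e y] * TT D k ((a ++ u :: v :: b).map D.e) =
          _ * (frm D [D.e x, D.e y] * TT D k ((a ++ v :: u :: b).map D.e))
        rw [this]
        ring
    exact cy_symW hA (cy_alg hA (TT_alg hA k).2 (by omega))
      (cy_symW hA (TT_alg hA k).2 h0 (by omega)) (by omega)

lemma TT_isSym (k : ℕ) : IsSym D (2 * k) (TT D k) :=
  isSym_of_symW hA (TT_alg hA k).1 (TT_symW hA k)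

lemma TT_pair (k : ℕ) {Q : List U → F} (hQ : alg (2 * k) Q) (hs : IsSym D (2 * k) Q)
    (h0 : (ctr D 0)^[k] Q [] = 0) : cn D (2 * k) (TT D k) Q [] [] = 0 := by
  induction k generalizing Q with
  | zero =>
    have : Q [] = 0 := h0
    show (1 : F) * Q [] = 0
    rw [this, mul_zero]
  | succ k ih =>
    have hQ' : alg (2 * k + 2) Q := hQ
    have hs' : IsSym D (2 * k + 2) Q := hs
    have h1 : cn D (2 * k) (TT D k) (ctr D (2 * k) Q) [] [] = 0 := by
      refine ih (hA.contr _ _ _ hQ' le_rfl) (ctr_isSym hs') ?_
      rw [iter_congr k (ctr_eq hA hQ' hs' (2 * k) le_rfl)]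
      rw [Function.iterate_succ_apply] at h0
      exact h0
    show cn D (2 * (k + 1)) (cy D (2 * k + 1) 0 (cy D (2 * k) 1 _)) Q [] [] = 0
    rw [pair_cy_left hA (cy_alg hA (TT_alg hA k).2 (by omega)) hs (by omega),
      pair_cy_left hA (TT_alg hA k).2 hs (by omega)]
    have h2 := pair_B (T := TT D k) (hA.form _ _ hQ')
    rw [h1] at h2
    rw [show 2 * (k + 1) = 2 * k + 2 by ring, h2]
    ring

lemma TT_word {α : Type*} {vec : α → U} {par : α → Bool} (hp : ∀ a, D.Par (par a) (vec a))
    (k : ℕ) (L : List α) (hL : L.length = 2 * (k + 1)) :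
    TT D (k + 1) (L.map vec) = csum par (fun x l' => csum par (fun y l'' =>
      D.B (vec x) (vec y) * TT D k (l''.map vec)) l') L := by
  have h1 := cy_apply hA hp (m := 2 * k + 1) (j := 0)
    (cy_alg hA (m := 2 * k) (j := 1) (TT_alg hA k).2 (by omega)) [] L rfl (by omega) (by omega)
  rw [List.nil_append] at h1
  show cy D (2 * k + 1) 0 (cy D (2 * k) 1 _) (L.map vec) = _
  rw [h1]
  refine csum_congr fun x l' hl' => ?_
  have h2 := cy_apply hA hp (m := 2 * k) (j := 1) (TT_alg hA k).2 [x] l' rfl (by omega)
    (by omega)
  simp only [List.singleton_append] at h2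
  rw [List.nil_append, h2]
  rfl

end TT

/-- the constants -/
def cc (F : Type u) [Field F] : ℕ → F
  | 0 => 1
  | k + 1 => 2 * ((k : F) + 1) * ((k : F) + 1) * cc F k

lemma cc_ne [CharZero F] (k : ℕ) : cc F k ≠ 0 := by
  induction k with
  | zero => exact one_ne_zero
  | succ k ih =>
    have h : (k : F) + 1 ≠ 0 := by exact_mod_cast Nat.succ_ne_zero k
    exact mul_ne_zero (mul_ne_zero (mul_ne_zero two_ne_zero h) h) ih

lemma TT_eval [CharZero F] {alg : ℕ → (List U → F) → Prop} (hA : AlgForms D alg) (w : U)
    (hw : D.ε w = w) (hww : D.B w w = 0) (k : ℕ) :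
    ∀ (a : ℕ) (l : List ι), k ≤ a → a + l.length = 2 * k →
      TT D k (List.replicate a w ++ l.map D.e) =
        if a = k then cc F k * (l.map fun i => D.B w (D.e i)).prod else 0 := by
  have hwp : D.Par false w := by show D.ε w = _; rw [hw, sp_false, one_smul]
  have hβ : ∀ i, D.p i = true → D.B w (D.e i) = 0 := by
    intro i hi
    have h1 := D.B_ε w (D.e i)
    rw [hw, D.ε_e, hi, sp_true, map_smul, smul_eq_mul] at h1
    have h2 : (2 : F) * D.B w (D.e i) = 0 := by linear_combination -h1
    exact (mul_eq_zero.mp h2).resolve_left two_ne_zero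
  have hβ' : ∀ i, D.B (D.e i) w = D.B w (D.e i) := by
    intro i
    have h1 := D.B_swap (D.par_e i) hwp
    rw [h1, sg_false_right, one_mul]
  induction k with
  | zero =>
    intro a l _ hl
    have h1 : a = 0 := by omega
    have h2 : l = [] := List.length_eq_zero_iff.mp (by omega)
    subst h1 h2
    simp [TT, cc]
  | succ k ih =>
    intro a l ha hl
    let vec : Option ι → U := fun o => o.elim w D.e
    let par : Option ι → Bool := fun o => o.elim false D.p
    have hp : ∀ o, D.Par (par o) (vec o) := by
      intro o
      cases o with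
      | none => exact hwp
      | some i => exact D.par_e i
    have hv : ∀ (a : ℕ) (l : List ι),
        (List.replicate a (none : Option ι) ++ l.map some).map vec =
        List.replicate a w ++ l.map D.e := by
      intro a l
      simp [vec, Function.comp_def]
    have hT := TT_word hA hp k (List.replicate a (none : Option ι) ++ l.map some)
      (by simp; omega)
    rw [hv] at hT
    rw [hT, csum_replicate (par := par) rfl, csum_replicate (par := par) rfl]
    have z1 : D.B (vec none) (vec none) = 0 := hww
    rw [z1, zero_mul, mul_zero, zero_add, csum_map, csum_map]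
    -- the common sum
    have hF : csum (fun b : ι => par (some b)) (fun y l' => D.B (vec none) (vec (some y)) *
        TT D k ((List.replicate (a - 1) (none : Option ι) ++ l'.map some).map vec)) l =
        if a = k + 1 then ((k : F) + 1) * (cc F k * (l.map fun i => D.B w (D.e i)).prod)
        else 0 := by
      have h1 : ∀ (y : ι) (l' : List ι), l'.length + 1 = l.length →
          D.B (vec none) (vec (some y)) *
            TT D k ((List.replicate (a - 1) (none : Option ι) ++ l'.map some).map vec) =
          (if a = k + 1 then cc F k else 0) *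
            (D.B w (D.e y) * (l'.map fun i => D.B w (D.e i)).prod) := by
        intro y l' hl'
        rw [hv, ih (a - 1) l' (by omega) (by omega)]
        show D.B w (D.e y) * _ = _
        by_cases hak : a = k + 1
        · rw [if_pos (by omega), if_pos hak]; ring
        · rw [if_neg (by omega), if_neg hak]; ring
      rw [csum_congr h1, csum_mul]
      have h9 := csum_prod (par := fun b : ι => par (some b)) (β := fun y => D.B w (D.e y)) hβ l
      rw [h9]
      by_cases hak : a = k + 1
      · rw [if_pos hak, if_pos hak, show l.length = k + 1 by omega]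
        push_cast
        ring
      · rw [if_neg hak, if_neg hak, zero_mul]
    have hG : csum (fun b : ι => par (some b)) (fun y l' => csum par (fun y' l'' =>
        D.B (vec (some y)) (vec y') * TT D k (l''.map vec))
        (List.replicate a (none : Option ι) ++ l'.map some)) l =
        a * csum (fun b : ι => par (some b)) (fun y l' => D.B (vec none) (vec (some y)) *
        TT D k ((List.replicate (a - 1) (none : Option ι) ++ l'.map some).map vec)) l := by
      rw [← csum_mul]
      refine csum_congr fun y l' hl' => ?_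
      rw [csum_replicate (par := par) rfl, csum_map]
      have h2 : csum (fun b : ι => par (some b)) (fun y' l'' =>
          D.B (vec (some y)) (vec (some y')) *
          TT D k ((List.replicate a (none : Option ι) ++ l''.map some).map vec)) l' = 0 := by
        rw [← csum_zero (F := F) (par := fun b : ι => par (some b)) l']
        refine csum_congr fun y' l'' hl'' => ?_
        rw [hv, ih a l'' (by omega) (by omega), if_neg (by omega), mul_zero]
      rw [h2, add_zero]
      congr 2
      exact hβ' y
    rw [hG, hF]
    by_cases hak : a = k + 1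
    · rw [if_pos hak, if_pos hak, hak, cc]
      push_cast
      ring
    · rw [if_neg hak, if_neg hak]
      ring

theorem exists_T [CharZero F] {D : SS F U ι} {alg : ℕ → (List U → F) → Prop}
    (hA : AlgForms D alg) (k : ℕ)
    (hk : ∀ P, alg (2 * k) P → IsSym D (2 * k) P → (ctr D 0)^[k] P [] = 0)
    (w : U) (hw : D.ε w = w) (hww : D.B w w = 0) :
    ∃ T, alg (2 * k) T ∧ (∀ Q, alg (2 * k) Q → cn D (2 * k) T Q [] [] = 0) ∧
      ∃ c : F, c ≠ 0 ∧ ∀ l : List U, l.length = k →
        T (List.replicate k w ++ l) = c * (l.map (fun y => D.B w y)).prod := by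
  refine ⟨TT D k, (TT_alg hA k).1, fun Q hQ => ?_, cc F k, cc_ne k, ?_⟩
  · obtain ⟨h1, h2, h3⟩ := sy_spec hA hQ (2 * k) le_rfl
    rw [Nat.sub_self] at h2
    have hs := isSym_of_symW hA h1 h2
    have h4 := TT_pair hA k h1 hs (hk _ h1 hs)
    rw [h3 _ (TT_isSym hA k)] at h4
    exact (mul_eq_zero.mp h4).resolve_left (by exact_mod_cast Nat.factorial_ne_zero _)
  · have hT := hA.form _ _ (TT_alg hA k).1
    have hf1 : IsForm D k (fun l => TT D k (List.replicate k w ++ l)) := by
      constructor
      · intro l₁ l₂ x y hl
        have := hT.add (List.replicate k w ++ l₁) l₂ x y (by simp; omega)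
        simpa using this
      · intro l₁ l₂ c x hl
        have := hT.smul (List.replicate k w ++ l₁) l₂ c x (by simp; omega)
        simpa using this
      · intro l hl
        have := hT.even (List.replicate k w ++ l) (by simp; omega)
        rw [List.map_append, List.map_replicate, hw] at this
        exact this
    have hf2 : IsForm D k (fun l => cc F k * (l.map (fun y => D.B w y)).prod) := by
      constructor
      · intro l₁ l₂ x y hl
        simp
        ring
      · intro l₁ l₂ c x hl
        simp
        ring
      · intro l hl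
        have : ∀ y, D.B w (D.ε y) = D.B w y := by
          intro y
          conv_lhs => rw [← hw]
          rw [D.B_ε]
        simp [Function.comp_def, this]
    apply hf1.ext_e hf2
    intro l hl
    have := TT_eval hA w hw hww k k l le_rfl (by omega)
    rw [if_pos rfl] at this
    simpa [Function.comp_def] using this

end Pool.Agent.Helper76.NN
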